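import Pool.Agent.Y494.SE.Nrm

/-!
# Superelliptic curves: divisibility of the class group by `1 - σ` over a separably closed field
-/

set_option autoImplicit false

open Polynomial IsDedekindDomain
open scoped nonZeroDivisors

namespace Pool.Agent.Y494.SE

open Pool.Agent.Y160.SE

section

variable {ℓ : ℕ} {F K : Type} [Field F] [Field K] [Algebra F K] {ζ : F} {f : F[X]} {f' : K[X]}

omit [Algebra F K] in
theorem NE_crMap (hg : Good ℓ ζ f) (φ : F →+* K) (hf : f.map φ = f') (a : CR ℓ f) :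
    NE (hg.map φ hf) (crMap ℓ φ f f' hf a) = crMap ℓ φ f f' hf (NE hg a) := by
  unfold NE
  rw [map_prod]
  suffices h : ∀ i, ((hg.map φ hf).tw ^ i) (crMap ℓ φ f f' hf a) =
      crMap ℓ φ f f' hf ((hg.tw ^ i) a) from Finset.prod_congr rfl fun i _ => h i
  intro i
  induction i with
  | zero => rfl
  | succ i ih =>
    have e1 := crMap_tw (ℓ := ℓ) φ hf hg.root.pow_eq_one (hg.map φ hf).root.pow_eq_one
    have e2 := congrArg (fun k : CR ℓ f →+* CR ℓ f' => k ((hg.tw ^ i) a)) e1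
    rw [pow_succ', pow_succ']
    show (hg.map φ hf).tw (((hg.map φ hf).tw ^ i) (crMap ℓ φ f f' hf a)) =
      crMap ℓ φ f f' hf (hg.tw ((hg.tw ^ i) a))
    rw [ih]
    exact e2.symm

/-- Over a purely inseparable extension, a power of each function is defined over the base. -/
theorem pow_range [IsPurelyInseparable F K] (hg : Good ℓ ζ f) (hf : f.map (algebraMap F K) = f')
    (q : ℕ) [ExpChar F q] (a : CR ℓ f') :
    ∃ m : ℕ, a ^ q ^ m ∈ (crMap ℓ (algebraMap F K) f f' hf).range := by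
  have hℓ := hg.prime.ne_zero
  have : ExpChar K q := expChar_of_injective_ringHom (algebraMap F K).injective q
  have : ExpChar (CR ℓ f') q := by
    refine expChar_of_injective_ringHom (f := (AdjoinRoot.of (X ^ ℓ - C f' : K[X][X])).comp C) ?_ q
    intro x y hxy
    exact C_injective (xp_inj (f := f') hℓ hxy)
  have hmono : ∀ (x : CR ℓ f') (m n : ℕ), m ≤ n → x ^ q ^ m ∈ (crMap ℓ (algebraMap F K) f f' hf).range →
      x ^ q ^ n ∈ (crMap ℓ (algebraMap F K) f f' hf).range := by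
    intro x m n hmn hx
    obtain ⟨k, rfl⟩ := Nat.exists_eq_add_of_le hmn
    rw [pow_add, pow_mul]
    exact Subring.pow_mem _ hx _
  have hadd : ∀ x y : CR ℓ f', (∃ m : ℕ, x ^ q ^ m ∈ (crMap ℓ (algebraMap F K) f f' hf).range) →
      (∃ m : ℕ, y ^ q ^ m ∈ (crMap ℓ (algebraMap F K) f f' hf).range) →
      ∃ m : ℕ, (x + y) ^ q ^ m ∈ (crMap ℓ (algebraMap F K) f f' hf).range := by
    rintro x y ⟨m, hm⟩ ⟨n, hn⟩
    refine ⟨max m n, ?_⟩
    rw [add_pow_expChar_pow]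
    exact Subring.add_mem _ (hmono x m _ (le_max_left _ _) hm) (hmono y n _ (le_max_right _ _) hn)
  have hmul : ∀ x y : CR ℓ f', (∃ m : ℕ, x ^ q ^ m ∈ (crMap ℓ (algebraMap F K) f f' hf).range) →
      (∃ m : ℕ, y ^ q ^ m ∈ (crMap ℓ (algebraMap F K) f f' hf).range) →
      ∃ m : ℕ, (x * y) ^ q ^ m ∈ (crMap ℓ (algebraMap F K) f f' hf).range := by
    rintro x y ⟨m, hm⟩ ⟨n, hn⟩
    refine ⟨max m n, ?_⟩
    rw [mul_pow]
    exact Subring.mul_mem _ (hmono x m _ (le_max_left _ _) hm) (hmono y n _ (le_max_right _ _) hn)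
  have hconst : ∀ c : K, ∃ m : ℕ, (xp ℓ f' (C c)) ^ q ^ m ∈
      (crMap ℓ (algebraMap F K) f f' hf).range := by
    intro c
    obtain ⟨m, d, hd⟩ := IsPurelyInseparable.pow_mem F q c
    refine ⟨m, xp ℓ f (C d), ?_⟩
    rw [crMap_xp, map_C, hd, ← xp_pow, C_pow]
  have hX : ∃ m : ℕ, (xp ℓ f' X) ^ q ^ m ∈ (crMap ℓ (algebraMap F K) f f' hf).range :=
    ⟨0, by rw [pow_zero, pow_one]; exact ⟨xp ℓ f X, by rw [crMap_xp, map_X]⟩⟩
  have hy : ∃ m : ℕ, (yy ℓ f') ^ q ^ m ∈ (crMap ℓ (algebraMap F K) f f' hf).range :=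
    ⟨0, by rw [pow_zero, pow_one]; exact ⟨yy ℓ f, by rw [crMap_yy]⟩⟩
  have hpol : ∀ p : K[X], ∃ m : ℕ, (xp ℓ f' p) ^ q ^ m ∈
      (crMap ℓ (algebraMap F K) f f' hf).range := by
    intro p
    induction p using Polynomial.induction_on with
    | C c => exact hconst c
    | add p r hp hr => rw [xp_add]; exact hadd _ _ hp hr
    | monomial n c ih =>
      rw [pow_succ, ← mul_assoc, xp_mul]
      exact hmul _ _ ih hX
  obtain ⟨P, rfl⟩ := cr_mem a
  induction P using Polynomial.induction_on with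
  | C c => exact hpol c
  | add p r hp hr => rw [map_add]; exact hadd _ _ hp hr
  | monomial n c ih =>
    rw [pow_succ, ← mul_assoc, map_mul]
    exact hmul _ _ ih hy

end

/-- Over a separably closed field every polynomial is a norm. -/
theorem nrm_sep (h1 : StRing) (h2 : StNorm) {ℓ : ℕ} {F : Type} [Field F] [IsSepClosed F] {ζ : F}
    {f : F[X]} (hg : Good ℓ ζ f) (g : F[X]) (hg0 : g ≠ 0) :
    ∃ a b : CR ℓ f, a ≠ 0 ∧ b ≠ 0 ∧ xp ℓ f g * NE hg b = NE hg a := by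
  have hD := h1 ℓ F ζ f hg
  have hℓ := hg.prime.ne_zero
  let K := AlgebraicClosure F
  let φ := algebraMap F K
  obtain ⟨q, hq⟩ := ExpChar.exists F
  have hgK := hg.map φ rfl
  have hDK := h1 ℓ K _ _ hgK
  obtain ⟨a, b, hb, hab⟩ := nrm_closed h1 h2 (hg.map φ rfl) (g.map φ)
  obtain ⟨m1, hm1⟩ := pow_range hg (K := K) rfl q a
  obtain ⟨m2, hm2⟩ := pow_range hg (K := K) rfl q b
  obtain ⟨a', ha'⟩ : a ^ q ^ (m1 + m2) ∈ (crMap ℓ φ f (f.map φ) rfl).range := by
    rw [pow_add, pow_mul]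
    exact Subring.pow_mem _ hm1 _
  obtain ⟨b', hb'⟩ : b ^ q ^ (m1 + m2) ∈ (crMap ℓ φ f (f.map φ) rfl).range := by
    rw [add_comm, pow_add, pow_mul]
    exact Subring.pow_mem _ hm2 _
  set Q := q ^ (m1 + m2) with hQ
  have hinj : Function.Injective (crMap ℓ φ f (f.map φ) rfl) := crMap_inj hℓ φ rfl
  have hrel : xp ℓ f g ^ Q * NE hg b' = NE hg a' := by
    apply hinj
    rw [map_mul, map_pow, crMap_xp, ← NE_crMap hg φ rfl, ← NE_crMap hg φ rfl, ha', hb',
      NE_pow, NE_pow, ← hab, mul_pow]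
  have hb'0 : b' ≠ 0 := by
    rintro rfl
    rw [map_zero] at hb'
    exact pow_ne_zero Q hb hb'.symm
  -- the exponents
  have hcop : Nat.Coprime Q ℓ := by
    rw [hQ]
    refine Nat.Coprime.pow_left _ ?_
    rcases hq with _ | ⟨hqp⟩
    · exact Nat.coprime_one_left ℓ
    · rw [Nat.coprime_primes hqp hg.prime]
      rintro rfl
      have h3 : ζ = 1 := by
        have h4 : (ζ - 1) ^ q = 0 := by
          have := Fact.mk hqp
          rw [sub_pow_char, hg.root.pow_eq_one, one_pow, sub_self]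
        have h5 := pow_eq_zero_iff hℓ |>.1 h4
        exact sub_eq_zero.1 h5
      have h6 := hg.root
      rw [h3] at h6
      have h7 := h6.unique IsPrimitiveRoot.one
      exact hg.prime.one_lt.ne' h7
  obtain ⟨u, v, huv⟩ : ∃ u v : ℕ, u * Q = v * ℓ + 1 := by
    obtain ⟨u, hu⟩ := Nat.exists_mul_mod_eq_one_of_coprime hcop hg.prime.one_lt
    obtain ⟨hu1, hu2⟩ := hu
    refine ⟨u, (Q * u) / ℓ, ?_⟩
    have := Nat.div_add_mod (Q * u) ℓ
    rw [hu2] at this
    rw [mul_comm u Q, mul_comm _ ℓ]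
    exact this.symm
  have hxg : xp ℓ f g ≠ 0 := by
    intro h0
    exact hg0 (xp_inj (f := f) hℓ (h0.trans xp_zero.symm))
  have ha'0 : a' ≠ 0 := by
    rintro rfl
    have : NE hg (0 : CR ℓ f) = 0 := by
      unfold NE
      exact Finset.prod_eq_zero (Finset.mem_range.2 hg.prime.pos) (by rw [map_zero])
    rw [this] at hrel
    exact mul_ne_zero (pow_ne_zero _ hxg) (NE_ne hg hb'0) hrel
  refine ⟨a' ^ u, xp ℓ f g ^ v * b' ^ u, pow_ne_zero _ ha'0,
    mul_ne_zero (pow_ne_zero _ hxg) (pow_ne_zero _ hb'0), ?_⟩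
  rw [NE_mul, NE_pow, NE_pow, NE_pow, NE_xp, ← hrel, mul_pow, ← pow_mul, ← pow_mul, mul_comm Q u,
    huv, mul_comm ℓ v, pow_succ]
  ring

theorem stDiv (h1 : StRing) (h2 : StNorm) (h4 : StNmI) : StDiv := by
  intro ℓ Ω _ _ ζ f hg I hI
  have hD := h1 ℓ Ω ζ f hg
  obtain ⟨⟨g, hgm, hgI⟩, -⟩ := h4 ℓ Ω ζ f hg I hI
  obtain ⟨a, b, ha, hb, hab⟩ := nrm_sep h1 h2 hg g hgm.ne_zero
  have h5 : NI hg (Ideal.span {b} * I) = NI hg (Ideal.span {a}) := by
    rw [NI_mul, NI_span, NI_span, ← hab, span_mul]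
    have : NI hg I = Ideal.span {xp ℓ f g} := hgI
    rw [this, mul_comm]
  have hbI : Ideal.span {b} * I ≠ 0 := by
    refine mul_ne_zero ?_ hI
    rwa [Ne, Ideal.zero_eq_bot, Ideal.span_singleton_eq_bot]
  have haI : Ideal.span {a} ≠ (0 : Ideal (CR ℓ f)) := by
    rwa [Ne, Ideal.zero_eq_bot, Ideal.span_singleton_eq_bot]
  obtain ⟨A, hA, hAI⟩ := h90 hg _ hbI _ haI h5
  exact ⟨A, hA, b, a, hb, ha, by rw [← mul_assoc]; exact hAI⟩

end Pool.Agent.Y494.SE
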