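import Pool.Agent.Y494.SE.Chi

/-!
# Superelliptic curves: the Kummer class of an ideal class
-/

set_option autoImplicit false

open Polynomial IsDedekindDomain
open scoped nonZeroDivisors

namespace Pool.Agent.Y494.SE

open Pool.Agent.Y160.SE

section

variable {ℓ : ℕ} {E Ω : Type} [Field E] [Field Ω] [Algebra E Ω] {ζ : E} {f : E[X]} {f' : Polynomial Ω}

theorem prod_map_tw {E' : Type} [Field E'] {g' : E'[X]} (hg : Good ℓ ζ f) (φ : E →+* E')
    (hf : f.map φ = g') (I : Ideal (CR ℓ f)) (g : E[X])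
    (h : ∏ i ∈ Finset.range ℓ, I.map (hg.tw ^ i) = Ideal.span {xp ℓ f g}) :
    ∏ i ∈ Finset.range ℓ, (I.map (crMap ℓ φ f g' hf)).map ((hg.map φ hf).tw ^ i) =
      Ideal.span {xp ℓ g' (g.map φ)} := by
  have h1 : ∀ i : ℕ, (I.map (crMap ℓ φ f g' hf)).map ((hg.map φ hf).tw ^ i) =
      (I.map (hg.tw ^ i)).map (crMap ℓ φ f g' hf) := by
    intro i
    rw [Ideal.map_map, Ideal.map_map]
    congr 1
    induction i with
    | zero => rfl
    | succ i ih =>
      have e1 := crMap_tw (ℓ := ℓ) φ hf hg.root.pow_eq_one (hg.map φ hf).root.pow_eq_one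
      apply RingHom.ext
      intro x
      have e2 := congrArg (fun k : CR ℓ f →+* CR ℓ g' => k ((hg.tw ^ i) x)) e1
      have e3 := congrArg (fun k : CR ℓ f →+* CR ℓ g' => k x) ih
      show ((hg.map φ hf).tw ^ (i + 1)) (crMap ℓ φ f g' hf x) = crMap ℓ φ f g' hf ((hg.tw ^ (i + 1)) x)
      rw [pow_succ', pow_succ']
      show (hg.map φ hf).tw (((hg.map φ hf).tw ^ i) (crMap ℓ φ f g' hf x)) =
        crMap ℓ φ f g' hf (hg.tw ((hg.tw ^ i) x))
      have e3' : ((hg.map φ hf).tw ^ i) (crMap ℓ φ f g' hf x) =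
        crMap ℓ φ f g' hf ((hg.tw ^ i) x) := e3
      rw [e3']
      exact e2.symm
  rw [Finset.prod_congr rfl fun i _ => h1 i]
  have h2 := congrArg (Ideal.map (crMap ℓ φ f g' hf)) h
  rw [Ideal.map_span, Set.image_singleton, crMap_xp] at h2
  rw [← h2]
  exact (map_prod (Ideal.mapHom (crMap ℓ φ f g' hf)) _ _).symm

theorem prod_tw_ne_bot [IsDedekindDomain (CR ℓ f)] (hg : Good ℓ ζ f) {J : Ideal (CR ℓ f)}
    (hJ : J ≠ ⊥) : ∏ i ∈ Finset.range ℓ, J.map (hg.tw ^ i) ≠ ⊥ := by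
  rw [← Ideal.zero_eq_bot]
  refine Finset.prod_ne_zero_iff.2 fun i _ => ?_
  rw [Ideal.zero_eq_bot, Ne, Ideal.map_eq_bot_iff_of_injective (tw_pow_inj hg i)]
  exact hJ

/-- The Kummer class: the value. -/
theorem kc_value [IsDedekindDomain (CR ℓ f)] (hN : StNorm) (hg : Good ℓ ζ f) (hs : f.Splits)
    {a b : CR ℓ f} (ha : Cop ℓ f a) (_hb : Cop ℓ f b) {I A : Ideal (CR ℓ f)} (hA : A ≠ ⊥)
    (h : Ideal.span {a} * (I * A.map hg.tw) = Ideal.span {b} * A) {g : E[X]}
    (hI : ∏ i ∈ Finset.range ℓ, I.map (hg.tw ^ i) = Ideal.span {xp ℓ f g}) {β : E}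
    (hgr : ∀ β', f.eval β' = 0 → g.eval β' ≠ 0)
    (hβ : f.eval β = 0) :
    (rat ℓ f β b / rat ℓ f β a) ^ ℓ * (f.roots.map fun β' => g.eval β').prod =
      g.eval β ^ f.natDegree := by
  classical
  have h1 := prod_tw hg h
  rw [hI, ← mul_assoc] at h1
  have h2 := mul_right_cancel₀ (prod_tw_ne_bot hg hA) h1
  rw [Ideal.span_singleton_mul_span_singleton] at h2
  obtain ⟨c, hc, hc2, -⟩ := rat_span hN hg hβ h2.symm
  have h6 : ∀ β', f.eval β' = 0 → ev ℓ f β' b ^ ℓ = c * ev ℓ f β' a ^ ℓ * g.eval β' := by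
    intro β' hβ'
    have := congrArg (ev ℓ f β') hc2
    rw [ev_norm hg hβ', ev_mul hg hβ', ev_const hg hβ', ev_mul hg hβ', ev_norm hg hβ'] at this
    have e : ev ℓ f β' (xp ℓ f g) = g.eval β' := by
      rw [ev_eq hg.prime.ne_zero hβ', evR_xp]
    rw [this, e, mul_assoc]
  have hnd := nodup_roots hg.sep
  have e0 : (f.roots.map fun β' => g.eval β').prod = ∏ β' ∈ f.roots.toFinset, g.eval β' := by
    rw [Finset.prod, Multiset.toFinset_val, Multiset.dedup_eq_self.2 hnd]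
  have e1 : f.natDegree = f.roots.toFinset.card := by
    rw [hs.natDegree_eq_card_roots, Finset.card, Multiset.toFinset_val,
      Multiset.dedup_eq_self.2 hnd]
  rw [e0, e1, div_pow, rat_pow, rat_pow, ← Finset.prod_div_distrib, ← Finset.prod_mul_distrib,
    ← Finset.prod_const]
  refine Finset.prod_congr rfl fun β' hβ' => ?_
  have hβ'' := (mem_roots' hg).1 hβ'
  rw [h6 β hβ, h6 β' hβ'']
  have n1 := hgr β' hβ''
  have n2 := pow_ne_zero ℓ (ha β hβ)
  have n3 := pow_ne_zero ℓ (ha β' hβ'')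
  field_simp

end

theorem stKC (h1 : StRing) (h2 : StNorm) : StKC := by
  intro ℓ E Ω _ _ _ ζ f f' hf hg hτ hs I A g hIy hA hcop hI hAI
  have hD := h1 ℓ Ω _ f' (hg.map (algebraMap E Ω) hf)
  set hg' := hg.map (algebraMap E Ω) hf with hhg'
  set m := crMap ℓ (algebraMap E Ω) f f' hf with hm
  obtain ⟨A1, hA1, hyA1, hA10⟩ := move (yy ℓ f') (yy_ne hg') A hA
  have hI'y : PY ℓ f' (I.map m) := PY.crMap (algebraMap E Ω) hf (show PY ℓ f I from hIy)
  have hAI1 : Eqv (I.map m * A1.map hg'.tw) A1 :=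
    Eqv.trans (Eqv.mul (Eqv.refl _) (Eqv.map hg'.tw (tw_inj hg') (Eqv.symm hA1)))
      (Eqv.trans hAI hA1)
  obtain ⟨a, b, ha, hb, hab⟩ := change hg' hs (PY.mul hI'y (PY.tw hg' hyA1)) hyA1 hAI1
  have hI' := prod_map_tw hg (algebraMap E Ω) hf I g hI
  have hgr : ∀ β', f'.eval β' = 0 → (g.map (algebraMap E Ω)).eval β' ≠ 0 := by
    intro β' hβ' h0
    obtain ⟨u, v, huv⟩ := hcop
    have := congrArg (aeval β') huv
    rw [map_add, map_mul, map_mul, map_one] at this
    have e1 : aeval β' f = 0 := by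
      rw [aeval_def, ← eval_map, hf, hβ']
    have e2 : aeval β' g = 0 := by
      rw [aeval_def, ← eval_map, h0]
    rw [e1, e2, mul_zero, mul_zero, add_zero] at this
    exact zero_ne_one this
  have hae : ∀ β', aeval β' g = (g.map (algebraMap E Ω)).eval β' := by
    intro β'
    rw [aeval_def, ← eval_map]
  refine ⟨fun β => rat ℓ f' β b / rat ℓ f' β a, fun β hβ => ⟨?_, ?_, ?_⟩, ?_⟩
  · exact div_ne_zero (rat_ne hg' hβ hb) (rat_ne hg' hβ ha)
  · rw [hae]
    exact hgr β hβ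
  · have h3 := kc_value h2 hg' hs ha hb hA10 hab hI' hgr hβ
    have e1 : f'.natDegree = f.natDegree := by
      rw [← hf, natDegree_map]
    rw [e1] at h3
    simp only [hae]
    exact h3
  · intro τ β z D hβ hD0 hAD hchi
    set mτ := crMap ℓ (τ : Ω →+* Ω) f' f' (hτ τ) with hmτ
    obtain ⟨J, a', b', e1, e2, ha', hb', hab', hz⟩ := hchi
    have hτβ : f'.eval (τ β) = 0 := eval_map' (τ : Ω →+* Ω) (hτ τ) hβ
    have hmi : Function.Injective mτ := crMap_inj hg'.prime.ne_zero (τ : Ω →+* Ω) (hτ τ)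
    have c1 : mτ.comp m = m := by
      apply cr_hom_ext
      · intro c
        simp only [RingHom.comp_apply, hm, hmτ, crMap_xp, map_C]
        congr 2
        exact τ.commutes c
      · simp only [RingHom.comp_apply, hm, hmτ, crMap_xp, map_X]
      · simp only [RingHom.comp_apply, hm, hmτ, crMap_yy]
    have c2 : mτ.comp hg'.tw = hg'.tw.comp mτ := by
      apply cr_hom_ext
      · intro c
        simp only [RingHom.comp_apply, hmτ, crMap_xp, tw_xp]
      · simp only [RingHom.comp_apply, hmτ, crMap_xp, tw_xp]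
      · simp only [RingHom.comp_apply, hmτ, crMap_yy, tw_yy, map_mul, crMap_xp, map_C]
        congr 3
        exact τ.commutes ζ
    have hτab : Ideal.span {mτ a} * (I.map m * (A1.map mτ).map hg'.tw) =
        Ideal.span {mτ b} * A1.map mτ := by
      have h3 := map_crMap (τ : Ω →+* Ω) (hτ τ) hab
      rw [Ideal.map_mul, Ideal.map_map, Ideal.map_map, c1, c2, ← Ideal.map_map] at h3
      exact h3
    have hA1J : Eqv (A1.map mτ) (J * A1) :=
      Eqv.trans (Eqv.map mτ hmi (Eqv.symm hA1)) (Eqv.trans hAD (Eqv.mul e1 hA1))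
    obtain ⟨p, q, hp, hq, hpq⟩ := change hg' hs (PY.crMap (τ : Ω →+* Ω) (hτ τ) hyA1)
      (PY.mul (show PY ℓ f' J from e2) hyA1) hA1J
    have hpq' := tw_map hg' hpq
    rw [Ideal.map_mul] at hpq'
    have hJ0 : J ≠ ⊥ := Eqv.ne_bot e1 hD0
    have hne : J.map hg'.tw * A1 ≠ ⊥ := by
      rw [← Ideal.zero_eq_bot] at *
      exact mul_ne_zero (tw_ne_bot hg' hJ0) hA10
    have key : Ideal.span {mτ a * p * hg'.tw q * b * a'} =
        Ideal.span {a * mτ b * hg'.tw p * q * b'} := by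
      apply mul_right_cancel₀ hne
      simp only [span_mul]
      calc Ideal.span {mτ a} * Ideal.span {p} * Ideal.span {hg'.tw q} * Ideal.span {b} *
            Ideal.span {a'} * (J.map hg'.tw * A1)
          = Ideal.span {mτ a} * Ideal.span {p} * Ideal.span {hg'.tw q} *
            Ideal.span {a'} * J.map hg'.tw * (Ideal.span {b} * A1) := by ring
        _ = Ideal.span {mτ a} * Ideal.span {p} * Ideal.span {a'} * Ideal.span {a} * I.map m *
            (Ideal.span {hg'.tw q} * (J.map hg'.tw * A1.map hg'.tw)) := by rw [← hab]; ring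
        _ = Ideal.span {p} * Ideal.span {a'} * Ideal.span {a} * Ideal.span {hg'.tw p} *
            (Ideal.span {mτ a} * (I.map m * (A1.map mτ).map hg'.tw)) := by rw [← hpq']; ring
        _ = Ideal.span {a'} * Ideal.span {a} * Ideal.span {hg'.tw p} * Ideal.span {mτ b} *
            (Ideal.span {p} * A1.map mτ) := by rw [hτab]; ring
        _ = Ideal.span {a} * Ideal.span {hg'.tw p} * Ideal.span {mτ b} * Ideal.span {q} * A1 *
            (Ideal.span {a'} * J) := by rw [hpq]; ring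
        _ = _ := by rw [hab']; ring
    obtain ⟨c, -, -, hr⟩ := rat_span h2 hg' hτβ key
    simp only [rat_mul hg' hτβ, rat_tw hg'] at hr
    have r1 : rat ℓ f' (τ β) (mτ a) = τ (rat ℓ f' β a) :=
      rat_crMap hg' (τ : Ω →+* Ω) (hτ τ) hs hβ a
    have r2 : rat ℓ f' (τ β) (mτ b) = τ (rat ℓ f' β b) :=
      rat_crMap hg' (τ : Ω →+* Ω) (hτ τ) hs hβ b
    rw [r1, r2] at hr
    have n1 := rat_ne hg' hτβ ha
    have n2 := rat_ne hg' hτβ hb
    have n3 := rat_ne hg' hτβ hp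
    have n4 := rat_ne hg' hτβ hq
    have n5 := rat_ne hg' hτβ ha'
    have n6 := rat_ne hg' hτβ hb'
    have n7 : τ (rat ℓ f' β a) ≠ 0 := (map_ne_zero (τ : Ω →+* Ω)).2 (rat_ne hg' hβ ha)
    have hz' : z = rat ℓ f' (τ β) a' / rat ℓ f' (τ β) b' := by
      rw [eq_div_iff n6]
      exact hz
    show τ (rat ℓ f' β b / rat ℓ f' β a) = z * (rat ℓ f' (τ β) b / rat ℓ f' (τ β) a)
    rw [map_div₀, hz']
    have hr' : τ (rat ℓ f' β a) * rat ℓ f' (τ β) b * rat ℓ f' (τ β) a' =
        rat ℓ f' (τ β) a * τ (rat ℓ f' β b) * rat ℓ f' (τ β) b' := by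
      have : (rat ℓ f' (τ β) p * rat ℓ f' (τ β) q) *
          (τ (rat ℓ f' β a) * rat ℓ f' (τ β) b * rat ℓ f' (τ β) a') =
          (rat ℓ f' (τ β) p * rat ℓ f' (τ β) q) *
          (rat ℓ f' (τ β) a * τ (rat ℓ f' β b) * rat ℓ f' (τ β) b') := by
        linear_combination hr
      exact mul_left_cancel₀ (mul_ne_zero n3 n4) this
    field_simp
    linear_combination -hr'

end Pool.Agent.Y494.SE
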