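import Pool.Agent.Y494.SE.KC

/-!
# Superelliptic curves: Hilbert 90 for ideals
-/

set_option autoImplicit false

open Polynomial IsDedekindDomain
open scoped nonZeroDivisors

namespace Pool.Agent.Y494.SE

open Pool.Agent.Y160.SE

section

variable {ℓ : ℕ} {E : Type} [Field E] {ζ : E} {f : E[X]}

/-- The product of the twists. -/
noncomputable def NI (hg : Good ℓ ζ f) (J : Ideal (CR ℓ f)) : Ideal (CR ℓ f) :=
  ∏ i ∈ Finset.range ℓ, J.map (hg.tw ^ i)

theorem NI_mul (hg : Good ℓ ζ f) (J K : Ideal (CR ℓ f)) : NI hg (J * K) = NI hg J * NI hg K := by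
  unfold NI
  simp only [Ideal.map_mul, Finset.prod_mul_distrib]

theorem NI_tw (hg : Good ℓ ζ f) (J : Ideal (CR ℓ f)) (k : ℕ) :
    NI hg (J.map (hg.tw ^ k)) = NI hg J := by
  unfold NI
  have h0 : ∀ (K : Ideal (CR ℓ f)) (i j : ℕ), (K.map (hg.tw ^ i)).map (hg.tw ^ j) =
      K.map (hg.tw ^ (i + j)) := by
    intro K i j
    rw [Ideal.map_map, add_comm i j, pow_add]
    rfl
  induction k with
  | zero => simp only [h0, zero_add]
  | succ k ih =>
    rw [← ih]
    simp only [h0]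
    obtain ⟨m, hm⟩ : ∃ m, ℓ = m + 1 := ⟨ℓ - 1, by have := hg.prime.one_lt; omega⟩
    have e3 : J.map (hg.tw ^ (k + 1 + m)) = J.map (hg.tw ^ (k + 0)) := by
      have : k + 1 + m = k + ℓ := by omega
      rw [this, pow_add, tw_pow_ℓ, mul_one, add_zero]
    have e4 : ∏ i ∈ Finset.range (m + 1), J.map (hg.tw ^ (k + 1 + i)) =
        ∏ i ∈ Finset.range (m + 1), J.map (hg.tw ^ (k + i)) := by
      rw [Finset.prod_range_succ, Finset.prod_range_succ' (fun i => J.map (hg.tw ^ (k + i))), e3]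
      congr 1
      refine Finset.prod_congr rfl fun i _ => ?_
      congr 2
      ring
    rw [← hm] at e4
    exact e4

theorem NI_ne_bot [IsDedekindDomain (CR ℓ f)] (hg : Good ℓ ζ f) {J : Ideal (CR ℓ f)}
    (hJ : J ≠ ⊥) : NI hg J ≠ ⊥ := prod_tw_ne_bot hg hJ

/-- Hilbert 90 for ideals. -/
theorem h90 [IsDedekindDomain (CR ℓ f)] (hg : Good ℓ ζ f) (I : Ideal (CR ℓ f)) :
    I ≠ 0 → ∀ I' : Ideal (CR ℓ f), I' ≠ 0 → NI hg I = NI hg I' →
      ∃ A : Ideal (CR ℓ f), A ≠ ⊥ ∧ I * A.map hg.tw = I' * A := by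
  induction I using UniqueFactorizationMonoid.induction_on_prime with
  | h₁ => intro h; exact absurd rfl h
  | h₂ I hI =>
    intro _ I' _ h
    rw [Ideal.isUnit_iff] at hI
    subst hI
    have h1 : NI hg (⊤ : Ideal (CR ℓ f)) = ⊤ := by
      unfold NI
      rw [← Ideal.one_eq_top]
      refine Finset.prod_eq_one fun i _ => ?_
      rw [Ideal.one_eq_top, Ideal.map_top]
    have h2 : NI hg I' ≤ I' := by
      have h3 : I'.map (hg.tw ^ 0) ∣ NI hg I' :=
        Finset.dvd_prod_of_mem (fun i => I'.map (hg.tw ^ i))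
          (Finset.mem_range.2 hg.prime.pos)
      have h4 : I'.map (hg.tw ^ 0) = I' := by
        rw [pow_zero]
        exact Ideal.map_id I'
      rw [h4] at h3
      exact Ideal.le_of_dvd h3
    rw [← h, h1, top_le_iff] at h2
    subst h2
    exact ⟨⊤, top_ne_bot, by rw [Ideal.map_top]⟩
  | h₃ K P hK hP ih =>
    intro _ I' hI' h
    have h1 : P ∣ NI hg I' := by
      rw [← h]
      have h3 : (P * K).map (hg.tw ^ 0) ∣ NI hg (P * K) :=
        Finset.dvd_prod_of_mem (fun i => (P * K).map (hg.tw ^ i))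
          (Finset.mem_range.2 hg.prime.pos)
      have h4 : (P * K).map (hg.tw ^ 0) = P * K := by
        rw [pow_zero]
        exact Ideal.map_id _
      rw [h4] at h3
      exact (Dvd.intro K rfl).trans h3
    obtain ⟨j, hj, hPj⟩ := (hP.dvd_finsetProd_iff _).1 h1
    have hjℓ : j < ℓ := Finset.mem_range.1 hj
    obtain ⟨L, hL⟩ := hPj
    have h2 : I' = P.map (hg.tw ^ (ℓ - j)) * L.map (hg.tw ^ (ℓ - j)) := by
      have h3 := congrArg (Ideal.map (hg.tw ^ (ℓ - j))) hL
      rw [Ideal.map_mul, Ideal.map_map] at h3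
      have h4 : (hg.tw ^ (ℓ - j)).comp (hg.tw ^ j) = RingHom.id _ := by
        have h5 : hg.tw ^ (ℓ - j) * hg.tw ^ j = 1 := by
          rw [← pow_add, Nat.sub_add_cancel hjℓ.le, tw_pow_ℓ]
        exact h5
      rw [h4, Ideal.map_id] at h3
      exact h3
    set k := ℓ - j with hk
    set K' := L.map (hg.tw ^ k) with hK'
    have hK'0 : K' ≠ 0 := by
      rintro h0
      apply hI'
      rw [h2, h0, mul_zero]
    have h5 : NI hg K = NI hg K' := by
      rw [h2, NI_mul, NI_mul, NI_tw] at h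
      exact mul_left_cancel₀ (NI_ne_bot hg hP.ne_zero) h
    obtain ⟨B, hB, hBK⟩ := ih hK K' hK'0 h5
    set Cc := ∏ i ∈ Finset.range k, P.map (hg.tw ^ i) with hC
    have hC0 : Cc ≠ ⊥ := by
      rw [← Ideal.zero_eq_bot]
      refine Finset.prod_ne_zero_iff.2 fun i _ => ?_
      rw [Ideal.zero_eq_bot, Ne, Ideal.map_eq_bot_iff_of_injective (tw_pow_inj hg i)]
      exact hP.ne_zero
    have hCt : P * Cc.map hg.tw = Cc * P.map (hg.tw ^ k) := by
      have e1 : Cc.map hg.tw = ∏ i ∈ Finset.range k, P.map (hg.tw ^ (i + 1)) := by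
        rw [hC]
        rw [show Ideal.map hg.tw (∏ i ∈ Finset.range k, P.map (hg.tw ^ i)) =
          ∏ i ∈ Finset.range k, (P.map (hg.tw ^ i)).map hg.tw from map_prod (Ideal.mapHom hg.tw) _ _]
        refine Finset.prod_congr rfl fun i _ => ?_
        rw [Ideal.map_map, pow_succ']
        rfl
      have e2 : P = P.map (hg.tw ^ 0) := by
        rw [pow_zero]
        exact (Ideal.map_id P).symm
      have e3 := Finset.prod_range_succ (fun i => P.map (hg.tw ^ i)) k
      have e4 := Finset.prod_range_succ' (fun i => P.map (hg.tw ^ i)) k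
      rw [e1]
      rw [e3] at e4
      rw [hC, e4, ← e2, mul_comm]
    refine ⟨B * Cc, ?_, ?_⟩
    · rw [← Ideal.zero_eq_bot] at *
      exact mul_ne_zero hB hC0
    · rw [Ideal.map_mul, h2]
      calc P * K * (B.map hg.tw * Cc.map hg.tw) = (P * Cc.map hg.tw) * (K * B.map hg.tw) := by ring
        _ = _ := by rw [hCt, hBK]; ring

end

end Pool.Agent.Y494.SE
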