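import Pool.Agent.Y494.SE.H90
import Pool.Agent.H552R3.Tsen.C1

/-!
# Superelliptic curves: every polynomial is a norm (Tsen)
-/

set_option autoImplicit false

open Polynomial IsDedekindDomain
open scoped nonZeroDivisors

namespace Pool.Agent.Y494.SE

open Pool.Agent.Y160.SE

section

variable {ℓ : ℕ} {E : Type} [Field E] {ζ : E} {f : E[X]}

/-- The product of the twists. -/
noncomputable def NE (hg : Good ℓ ζ f) (a : CR ℓ f) : CR ℓ f :=
  ∏ i ∈ Finset.range ℓ, (hg.tw ^ i) a

theorem NE_mul (hg : Good ℓ ζ f) (a b : CR ℓ f) : NE hg (a * b) = NE hg a * NE hg b := by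
  unfold NE
  simp only [map_mul, Finset.prod_mul_distrib]

theorem NE_one (hg : Good ℓ ζ f) : NE hg 1 = 1 := by
  unfold NE
  simp only [map_one, Finset.prod_const_one]

theorem NE_pow (hg : Good ℓ ζ f) (a : CR ℓ f) (n : ℕ) : NE hg (a ^ n) = NE hg a ^ n := by
  induction n with
  | zero => rw [pow_zero, pow_zero, NE_one]
  | succ n ih => rw [pow_succ, pow_succ, NE_mul, ih]

theorem tw_pow_xp (hg : Good ℓ ζ f) (i : ℕ) (p : E[X]) : (hg.tw ^ i) (xp ℓ f p) = xp ℓ f p := by
  induction i with
  | zero => rfl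
  | succ i ih =>
    rw [pow_succ']
    show hg.tw ((hg.tw ^ i) (xp ℓ f p)) = _
    rw [ih, tw_xp]

theorem NE_xp (hg : Good ℓ ζ f) (p : E[X]) : NE hg (xp ℓ f p) = xp ℓ f p ^ ℓ := by
  unfold NE
  simp only [tw_pow_xp hg, Finset.prod_const, Finset.card_range]

theorem NE_ne [IsDomain (CR ℓ f)] (hg : Good ℓ ζ f) {a : CR ℓ f} (ha : a ≠ 0) : NE hg a ≠ 0 := by
  unfold NE
  exact Finset.prod_ne_zero_iff.2 fun i _ => (map_ne_zero_iff _ (tw_pow_inj hg i)).2 ha

theorem NI_span (hg : Good ℓ ζ f) (a : CR ℓ f) :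
    NI hg (Ideal.span {a}) = Ideal.span {NE hg a} := by
  unfold NI NE
  rw [← Ideal.prod_span_singleton]
  refine Finset.prod_congr rfl fun i _ => ?_
  rw [Ideal.map_span, Set.image_singleton]

end

/-- The totalDegree of a determinant of linear forms. -/
theorem tdeg_det {ι σ R : Type*} [Fintype ι] [DecidableEq ι] [CommRing R] [Nontrivial R]
    (M : Matrix ι ι (MvPolynomial σ R)) (h : ∀ i j, (M i j).totalDegree ≤ 1) :
    M.det.totalDegree ≤ Fintype.card ι := by
  rw [Matrix.det_apply]
  refine MvPolynomial.totalDegree_finsetSum_le fun s _ => ?_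
  have h1 : (∏ i, M (s i) i).totalDegree ≤ Fintype.card ι := by
    refine (MvPolynomial.totalDegree_finsetProd _ _).trans ?_
    refine (Finset.sum_le_sum fun i _ => h (s i) i).trans ?_
    simp
  have h2 : (Equiv.Perm.sign s • ∏ i, M (s i) i) = (∏ i, M (s i) i) ∨
      (Equiv.Perm.sign s • ∏ i, M (s i) i) = -(∏ i, M (s i) i) := by
    rcases Int.units_eq_one_or (Equiv.Perm.sign s) with h | h
    · left; rw [h, one_smul]
    · right; rw [h, Units.neg_smul, one_smul]
  rcases h2 with h2 | h2
  · rw [h2]; exact h1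
  · rw [h2, MvPolynomial.totalDegree_neg]; exact h1

/-- Tsen's theorem: over an algebraically closed field every polynomial is a norm. -/
theorem nrm_closed (h1 : StRing) (h2 : StNorm) {ℓ : ℕ} {K : Type} [Field K] [IsAlgClosed K] {ζ : K}
    {f : K[X]} (hg : Good ℓ ζ f) (g : K[X]) :
    ∃ a b : CR ℓ f, b ≠ 0 ∧ xp ℓ f g * NE hg b = NE hg a := by
  classical
  have hD := h1 ℓ K ζ f hg
  have hℓ := hg.prime.ne_zero
  have hm : (X ^ ℓ - C f : K[X][X]).Monic := monic_cr hℓ
  set pb := AdjoinRoot.powerBasis' hm with hpb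
  have hdim : pb.dim = ℓ := by
    rw [hpb, AdjoinRoot.powerBasis'_dim, natDegree_X_pow_sub_C]
  set B := pb.basis with hB
  have hcard : Fintype.card (Fin pb.dim) = ℓ := by rw [Fintype.card_fin, hdim]
  set Mx : Fin pb.dim → Matrix (Fin pb.dim) (Fin pb.dim) K[X] := fun i =>
    Algebra.leftMulMatrix B (B i) with hMx
  have hnorm : ∀ c : Fin pb.dim → K[X], Algebra.norm K[X] (∑ i, c i • B i) =
      (∑ i, c i • Mx i).det := by
    intro c
    rw [Algebra.norm_eq_matrix_det B, map_sum]
    congr 1
    refine Finset.sum_congr rfl fun i _ => ?_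
    rw [map_smul]
  -- the field of fractions
  let L := FractionRing K[X]
  let ψ : K[X] →+* L := algebraMap K[X] L
  have hψ : Function.Injective ψ := IsFractionRing.injective K[X] L
  have haev : ∀ p : K[X], aeval (ψ X) p = ψ p := by
    intro p
    have := Polynomial.aeval_algebraMap_apply L (X : K[X]) p
    rw [Polynomial.aeval_X_left_apply] at this
    exact this
  -- the form
  let Ψ : MvPolynomial (Option (Fin pb.dim)) L :=
    Matrix.det (∑ i, (MvPolynomial.X (some i) : MvPolynomial (Option (Fin pb.dim)) L) •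
      ((Mx i).map ψ).map (MvPolynomial.C : L →+* MvPolynomial (Option (Fin pb.dim)) L)) -
    MvPolynomial.C (ψ g) * MvPolynomial.X none ^ ℓ
  have hev : ∀ a : Option (Fin pb.dim) → L, MvPolynomial.eval a Ψ =
      (∑ i, a (some i) • (Mx i).map ψ).det - ψ g * a none ^ ℓ := by
    intro a
    simp only [Ψ]
    rw [map_sub, map_mul, map_pow, MvPolynomial.eval_C, MvPolynomial.eval_X, RingHom.map_det]
    congr 2
    ext i j
    simp only [RingHom.mapMatrix_apply, Matrix.map_apply, Matrix.sum_apply, Matrix.smul_apply,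
      smul_eq_mul, map_sum, map_mul, MvPolynomial.eval_X, MvPolynomial.eval_C]
  obtain ⟨a, ha0, ha⟩ := Pool.Agent.H552R3.Tsen.exists_zero (k := K) (L := L) (ψ X)
    (J := Unit) (fun _ => 1) (by
      rintro ⟨p, hp0, hp⟩
      rw [haev] at hp
      exact hp0 (hψ (by rw [hp, map_zero]))) (by
      intro z
      obtain ⟨p, q, hq, hz⟩ := IsFractionRing.div_surjective (A := K[X]) z
      refine ⟨q, nonZeroDivisors.ne_zero hq, fun _ => p, ?_⟩
      rw [haev, ← hz]
      simp only [Finset.univ_unique, Finset.sum_singleton, mul_one, haev]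
      rw [mul_div_cancel₀]
      exact fun h0 => nonZeroDivisors.ne_zero hq (hψ (by rw [map_zero]; exact h0))) (by
      intro p hp j
      simp only [Finset.univ_unique, Finset.sum_singleton, mul_one, haev] at hp
      exact hψ (by rw [map_zero]; exact hp)) Ψ ℓ (by
      refine (MvPolynomial.totalDegree_sub _ _).trans (max_le ?_ ?_)
      · refine (tdeg_det _ fun i j => ?_).trans hcard.le
        rw [Matrix.sum_apply]
        refine MvPolynomial.totalDegree_finsetSum_le fun k _ => ?_
        rw [Matrix.smul_apply, smul_eq_mul, Matrix.map_apply]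
        refine (MvPolynomial.totalDegree_mul _ _).trans ?_
        rw [MvPolynomial.totalDegree_X, MvPolynomial.totalDegree_C]
      · refine (MvPolynomial.totalDegree_mul _ _).trans ?_
        rw [MvPolynomial.totalDegree_C, MvPolynomial.totalDegree_X_pow, zero_add]) (by
      rw [hev]
      simp only [Pi.zero_apply, zero_smul, Finset.sum_const_zero]
      rw [zero_pow hℓ, mul_zero, sub_zero]
      have : Nonempty (Fin pb.dim) := ⟨⟨0, by rw [hdim]; exact hg.prime.pos⟩⟩
      exact Matrix.det_zero) (by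
      rw [Fintype.card_option, hcard]; omega)
  rw [hev, sub_eq_zero] at ha
  -- clear denominators
  obtain ⟨⟨d, hd⟩, hd'⟩ := IsLocalization.exist_integer_multiples_of_finite (nonZeroDivisors K[X]) a
  choose c hc using hd'
  have hd0 : d ≠ 0 := nonZeroDivisors.ne_zero hd
  have hcψ : ∀ o, ψ (c o) = ψ d * a o := by
    intro o
    have := hc o
    rw [Algebra.smul_def] at this
    exact this
  have hψd : ψ d ≠ 0 := fun h0 => hd0 (hψ (by rw [map_zero]; exact h0))
  have hdet : (∑ i, c (some i) • Mx i).det = g * c none ^ ℓ := by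
    apply hψ
    rw [RingHom.map_det, map_mul, map_pow, hcψ none, mul_pow]
    have e1 : ψ.mapMatrix (∑ i, c (some i) • Mx i) = ψ d • ∑ i, a (some i) • (Mx i).map ψ := by
      ext i j
      simp only [RingHom.mapMatrix_apply, Matrix.map_apply, Matrix.sum_apply, Matrix.smul_apply,
        smul_eq_mul, map_sum, map_mul, hcψ, Finset.mul_sum]
      refine Finset.sum_congr rfl fun k _ => ?_
      ring
    rw [e1, Matrix.det_smul, hcard, ha]
    ring
  set x : CR ℓ f := ∑ i, c (some i) • B i with hx
  have hNx : NE hg x = xp ℓ f g * NE hg (xp ℓ f (c none)) := by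
    have e1 := (h2 ℓ K ζ f hg).1 x
    rw [hnorm, hdet, xp_mul, xp_pow] at e1
    rw [NE_xp]
    exact e1.symm
  refine ⟨x, xp ℓ f (c none), ?_, hNx.symm⟩
  intro h0
  have h3 : c none = 0 := xp_inj (f := f) hℓ (h0.trans xp_zero.symm)
  have h4 : x = 0 := by
    by_contra hne
    apply NE_ne hg hne
    rw [hNx, h0]
    have : NE hg (0 : CR ℓ f) = 0 := by
      unfold NE
      exact Finset.prod_eq_zero (Finset.mem_range.2 hg.prime.pos) (by rw [map_zero])
    rw [this, mul_zero]
  have h5 : ∀ i, c (some i) = 0 := by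
    have := Fintype.linearIndependent_iff.1 B.linearIndependent (fun i => c (some i)) h4
    exact this
  apply ha0
  funext o
  have h6 : c o = 0 := by
    cases o with
    | none => exact h3
    | some i => exact h5 i
  have h7 := hcψ o
  rw [h6, map_zero] at h7
  exact (mul_eq_zero.1 h7.symm).resolve_left hψd

end Pool.Agent.Y494.SE
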